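import Pool.Agent.H68.ZA.Fin

set_option autoImplicit false

namespace Pool.Agent.Results.MP_d409f8_lc.Definability

open FirstOrder FirstOrder.Language
open Pool.Agent.H68.ZA Pool.Agent.H68.ZA.Df

/-- the first-order structure of a commutative ring -/
noncomputable local instance str {R : Type} [CommRing R] : Language.ring.Structure R :=
  (FirstOrder.Ring.compatibleRingOfRing R).toStructure

/-- Let `A = ℤ^ab` be the ring of algebraic integers of the field generated by all roots of unity.
In the language of rings, without parameters, the following sets are definable in `A`: the set of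
rational integers, the set of roots of unity, the set of real elements and the graph of complex
conjugation. The theory of `A` is undecidable. -/
theorem result (A : Subring ℂ)
    (hA : A = (integralClosure ℤ ℂ).toSubring ⊓
      (Subfield.closure {z : ℂ | ∃ n : ℕ, 0 < n ∧ z ^ n = 1}).toSubring) :
    Set.Definable₁ (∅ : Set A) Language.ring {x : A | ∃ n : ℤ, (x : ℂ) = n} ∧
    Set.Definable₁ (∅ : Set A) Language.ring {x : A | ∃ n : ℕ, 0 < n ∧ (x : ℂ) ^ n = 1} ∧
    Set.Definable₁ (∅ : Set A) Language.ring {x : A | (x : ℂ).im = 0} ∧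
    Set.Definable₂ (∅ : Set A) Language.ring
      {x : A × A | (x.2 : ℂ) = (starRingEnd ℂ) (x.1 : ℂ)} ∧
    ∀ e : (Σ i, Language.ring.Functions i) → ℕ, Function.Injective e →
      ¬ ComputablePred (fun n : ℕ =>
        ∃ φ : Language.ring.Sentence,
          Encodable.encode
              (φ.listEncode.map
                (Sum.map
                  (fun t => (⟨t.1, t.2.listEncode.map (Sum.map id e)⟩ :
                    Σ k : ℕ, List ((Empty ⊕ Fin k) ⊕ ℕ)))
                  (Sum.map (fun r => r.1) id))) = n ∧
          Sentence.Realize A φ) := by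
  set f := (equivZab A hA).symm with hf
  have hinc : ∀ x : A, inc (f x) = (x : ℂ) := by
    intro x
    have h1 : ((equivZab A hA) (f x) : ℂ) = inc (f x) := rfl
    rw [← h1, hf, RingEquiv.apply_symm_apply]
  refine ⟨?_, ?_, ?_, ?_, fun e he => undec A hA e he⟩
  · have h := definable_of_D (R := fun x : A => ∃ n : ℤ, f x = n)
      (transferD f int_definable)
    have hs : {x : A | ∃ n : ℤ, (x : ℂ) = n} = {x : A | ∃ n : ℤ, f x = n} := by
      ext x
      refine exists_congr fun n => ?_
      rw [← hinc, ← map_intCast inc]
      exact inc_inj.eq_iff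
    rw [hs]
    exact h
  · have h := definable_of_D (R := fun x : A => Mu (f x)) (transferD f d_mu)
    have hs : {x : A | ∃ n : ℕ, 0 < n ∧ (x : ℂ) ^ n = 1} = {x : A | Mu (f x)} := by
      ext x
      show (∃ n : ℕ, 0 < n ∧ (x : ℂ) ^ n = 1) ↔ Mu (f x)
      rw [mu_iff, ← hinc]
      refine exists_congr fun n => ?_
      rw [Nat.pos_iff_ne_zero, ← map_pow, ← map_one inc, inc_inj.eq_iff]
    rw [hs]
    exact h
  · have h := definable_of_D (R := fun x : A => (inc (f x)).im = 0)
      (transferD f real_definable)
    have hs : {x : A | (x : ℂ).im = 0} = {x : A | (inc (f x)).im = 0} := by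
      ext x
      show (x : ℂ).im = 0 ↔ (inc (f x)).im = 0
      rw [hinc]
    rw [hs]
    exact h
  · have h := definable2_of_D (P := fun x y : A => CJ (f x) (f y))
      (transferD f (P := fun v => CJ (v 0) (v 1)) d_cj)
    have hs : {x : A × A | (x.2 : ℂ) = (starRingEnd ℂ) (x.1 : ℂ)} =
        {x : A × A | CJ (f x.1) (f x.2)} := by
      ext x
      show (x.2 : ℂ) = (starRingEnd ℂ) (x.1 : ℂ) ↔ CJ (f x.1) (f x.2)
      rw [cj_iff, ← hinc, ← hinc, ← inc_cR, inc_inj.eq_iff, eq_comm]
    rw [hs]
    exact h

end Pool.Agent.Results.MP_d409f8_lc.Definability
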